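import Pool.Agent.R695.TR.Stm

namespace Pool.Agent.R695.TR
namespace LPathAux

open Finset
open scoped Classical

set_option linter.unusedSectionVars false

variable {V : Type} [Fintype V]

theorem nb3 {L : SimpleGraph V} {x y : V} (h : {z | L.Adj x z}.ncard = 3) (hy : L.Adj x y) :
    ∃ z w, y ≠ z ∧ y ≠ w ∧ z ≠ w ∧ L.Adj x z ∧ L.Adj x w ∧
      ∀ v, L.Adj x v → v = y ∨ v = z ∨ v = w := by
  obtain ⟨a, b, c, hab, hac, hbc, hs⟩ := Set.ncard_eq_three.mp h
  have hm : ∀ v, L.Adj x v ↔ v = a ∨ v = b ∨ v = c := by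
    intro v
    have : v ∈ {z | L.Adj x z} ↔ v ∈ ({a, b, c} : Set V) := by rw [hs]
    simpa using this
  rcases (hm y).mp hy with rfl | rfl | rfl
  · exact ⟨b, c, hab, hac, hbc, (hm b).mpr (by simp), (hm c).mpr (by simp), fun v hv => by
      rcases (hm v).mp hv with h | h | h <;> simp [h]⟩
  · exact ⟨a, c, hab.symm, hbc, hac, (hm a).mpr (by simp), (hm c).mpr (by simp), fun v hv => by
      rcases (hm v).mp hv with h | h | h <;> simp [h]⟩
  · exact ⟨a, b, hac.symm, hbc.symm, hab, (hm a).mpr (by simp), (hm b).mpr (by simp), fun v hv => by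
      rcases (hm v).mp hv with h | h | h <;> simp [h]⟩

theorem nb3' {L : SimpleGraph V} {x y z : V} (h : {z | L.Adj x z}.ncard = 3) (hy : L.Adj x y)
    (hz : L.Adj x z) (hyz : y ≠ z) :
    ∃ w, w ≠ y ∧ w ≠ z ∧ L.Adj x w ∧ ∀ v, L.Adj x v → v = y ∨ v = z ∨ v = w := by
  obtain ⟨b, c, hyb, hyc, hbc, hb, hc, hall⟩ := nb3 h hy
  rcases hall z hz with rfl | rfl | rfl
  · exact absurd rfl hyz
  · exact ⟨c, hyc.symm, hbc.symm, hc, hall⟩
  · exact ⟨b, hyb.symm, hbc, hb, fun v hv => by
      rcases hall v hv with h | h | h <;> simp [h]⟩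

theorem no4 {L : SimpleGraph V} {x a b c d : V} (h : {z | L.Adj x z}.ncard = 3)
    (ha : L.Adj x a) (hb : L.Adj x b) (hc : L.Adj x c) (hd : L.Adj x d)
    (hab : a ≠ b) (hac : a ≠ c) (had : a ≠ d) (hbc : b ≠ c) (hbd : b ≠ d) (hcd : c ≠ d) :
    False := by
  obtain ⟨w, hwa, hwb, hw, hall⟩ := nb3' h ha hb hab
  rcases hall c hc with h | h | h
  · exact hac h.symm
  · exact hbc h.symm
  · rcases hall d hd with h' | h' | h'
    · exact had h'.symm
    · exact hbd h'.symm
    · exact hcd (h.trans h'.symm)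

theorem two_nb {L : SimpleGraph V} {u w : V} (hw : (nb L).Adj u w) :
    ∃ z, z ≠ w ∧ (nb L).Adj u z := by
  classical
  have hb : ¬ L.IsBridge s(u, w) := hw.2
  rw [SimpleGraph.isBridge_iff_forall_cycle_notMem (e := s(u, w)) hw.1] at hb
  push Not at hb
  obtain ⟨x, p, hp, hmem⟩ := hb
  have hu : u ∈ p.support := SimpleGraph.Walk.fst_mem_support_of_mem_edges p hmem
  have hc : (p.rotate u hu).IsCycle := hp.rotate hu
  set c := p.rotate u hu with hcdef
  have h1 : c.snd ≠ c.penultimate := hc.snd_ne_penultimate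
  have a1 : L.Adj u c.snd := c.adj_snd hc.not_nil
  have a2 : L.Adj c.penultimate u := c.adj_penultimate hc.not_nil
  have e1 : s(u, c.snd) ∈ c.edges := c.mk_start_snd_mem_edges hc.not_nil
  have e2 : s(c.penultimate, u) ∈ c.edges := c.mk_penultimate_end_mem_edges hc.not_nil
  have n1 : ¬ L.IsBridge s(u, c.snd) := fun h => h.notMem_edges_of_isCycle hc e1
  have n2 : ¬ L.IsBridge s(c.penultimate, u) := fun h => h.notMem_edges_of_isCycle hc e2
  by_cases h : c.snd = w
  · refine ⟨c.penultimate, fun h' => h1 (h.trans h'.symm), a2.symm, ?_⟩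
    rw [Sym2.eq_swap]; exact n2
  · exact ⟨c.snd, h, a1, n1⟩


/-- path starting at `u`, avoiding `a` -/
structure PP (M : SimpleGraph V) (a u : V) (m : ℕ) (P : ℕ → V) : Prop where
  h0 : P 0 = u
  inj : ∀ i j, i ≤ m → j ≤ m → P i = P j → i = j
  av : ∀ i, i ≤ m → P i ≠ a
  adj : ∀ i, i < m → M.Adj (P i) (P (i + 1))

theorem PP.reach {M : SimpleGraph V} {a u : V} {m : ℕ} {P : ℕ → V} (h : PP M a u m P) :
    ∀ i, i ≤ m → M.Reachable u (P i) := by
  intro i
  induction i with
  | zero => intro _; rw [h.h0]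
  | succ k ih => intro hk; exact (ih (by omega)).trans (h.adj k (by omega)).reachable

theorem PP.lt_card {M : SimpleGraph V} {a u : V} {m : ℕ} {P : ℕ → V} (h : PP M a u m P) :
    m < Fintype.card V := by
  have : Function.Injective (fun i : Fin (m + 1) => P i.1) := by
    intro i j hij
    exact Fin.ext (h.inj i.1 j.1 (by omega) (by omega) hij)
  have := Fintype.card_le_of_injective _ this
  simpa using this

theorem closeCyc {L : SimpleGraph V} {a u : V} {m : ℕ} {P : ℕ → V} (h : PP (nb L) a u m P)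
    {i : ℕ} (hi : i + 2 ≤ m) (hadj : L.Adj (P m) (P i)) : Cyc L (m - i + 1) (fun k => P (i + k)) where
  h3 := by omega
  inj := by
    intro k l hk hl hkl
    have := h.inj (i + k) (i + l) (by omega) (by omega) hkl
    omega
  adj := by
    intro k hk
    have := (h.adj (i + k) (by omega)).1
    exact this
  cl := by
    have e : i + (m - i + 1 - 1) = m := by omega
    simp only [e, Nat.add_zero]
    exact hadj

theorem end_lem {L : SimpleGraph V} {a u : V}
    (hdeg : ∀ x y, L.Adj x y → {z | L.Adj x z}.ncard = 3)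
    (hK1 : ∀ x, (nb L).Reachable u x → x ≠ u → ∀ y, L.Adj x y → (nb L).Adj x y)
    (hev : ∀ n x, Cyc L n x → Even n → (∀ i, i < n → (nb L).Reachable u (x i)) →
      (∀ i, i < n → x i ≠ a) → False)
    {m : ℕ} (hmax : ∀ P, ¬ PP (nb L) a u (m + 1) P) {P : ℕ → V} (hP : PP (nb L) a u m P)
    (hm : 1 ≤ m) : L.Adj (P m) a ∧ ∃ j, j + 2 ≤ m ∧ L.Adj (P m) (P j) := by
  have hxu : P m ≠ u := by
    intro h
    rw [← hP.h0] at h
    have := hP.inj m 0 le_rfl (by omega) h
    omega
  have hlast : (nb L).Adj (P m) (P (m - 1)) := by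
    have := hP.adj (m - 1) (by omega)
    rw [show m - 1 + 1 = m by omega] at this
    exact this.symm
  have hon : ∀ y, L.Adj (P m) y → y ≠ P (m - 1) → y = a ∨ ∃ i, i + 2 ≤ m ∧ y = P i := by
    intro y hy hne
    by_contra hcon
    push Not at hcon
    obtain ⟨hya, hyP⟩ := hcon
    have hyP' : ∀ i, i ≤ m → y ≠ P i := by
      intro i hi
      rcases Nat.lt_or_ge (i + 1) m with h | h
      · exact hyP i (by omega)
      · rcases Nat.lt_or_ge i m with h' | h'
        · have : i = m - 1 := by omega
          rw [this]; exact hne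
        · have : i = m := by omega
          rw [this]; exact hy.ne'
    refine hmax (fun i => if i ≤ m then P i else y) ⟨?_, ?_, ?_, ?_⟩
    · simp [hP.h0]
    · intro i j hi hj hij
      by_cases h1 : i ≤ m <;> by_cases h2 : j ≤ m
      · simp only [h1, h2, if_true] at hij
        exact hP.inj i j h1 h2 hij
      · simp only [h1, h2, if_true, if_false] at hij
        exact absurd hij.symm (hyP' i h1)
      · simp only [h1, h2, if_true, if_false] at hij
        exact absurd hij (hyP' j h2)
      · omega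
    · intro i hi
      by_cases h1 : i ≤ m
      · simp only [h1, if_true]; exact hP.av i h1
      · simp only [h1, if_false]; exact hya
    · intro i hi
      by_cases h1 : i < m
      · have h2 : i ≤ m := by omega
        have h3 : i + 1 ≤ m := by omega
        simp only [h2, h3, if_true]
        exact hP.adj i h1
      · have h2 : i = m := by omega
        subst h2
        simp only [le_refl, if_true, show ¬ (i + 1 ≤ i) by omega, if_false]
        exact hK1 _ (hP.reach i le_rfl) hxu y hy
  have hcl : ∀ i, i + 2 ≤ m → L.Adj (P m) (P i) → ¬ Even (m - i + 1) := by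
    intro i hi hadj hev'
    exact hev _ _ (closeCyc hP hi hadj) hev' (fun k hk => hP.reach _ (by omega))
      (fun k hk => hP.av _ (by omega))
  have hno : ∀ i j, i < j → j + 2 ≤ m → L.Adj (P m) (P i) → L.Adj (P m) (P j) → False := by
    intro i j hij hj ha1 ha2
    have h1 := hcl i (by omega) ha1
    have h2 := hcl j hj ha2
    have h3 : Even (j - i + 2) := by
      rw [Nat.even_iff] at *
      omega
    refine hev (j - i + 2) (fun k => if k ≤ j - i then P (i + k) else P m) ⟨by omega, ?_, ?_, ?_⟩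
      h3 ?_ ?_
    · intro k l hk hl hkl
      by_cases c1 : k ≤ j - i <;> by_cases c2 : l ≤ j - i
      · simp only [c1, c2, if_true] at hkl
        have := hP.inj _ _ (by omega) (by omega) hkl
        omega
      · simp only [c1, c2, if_true, if_false] at hkl
        have := hP.inj _ _ (by omega) (by omega) hkl
        omega
      · simp only [c1, c2, if_true, if_false] at hkl
        have := hP.inj _ _ (by omega) (by omega) hkl
        omega
      · omega
    · intro k hk
      by_cases c1 : k + 1 ≤ j - i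
      · have c2 : k ≤ j - i := by omega
        simp only [c1, c2, if_true]
        exact (hP.adj (i + k) (by omega)).1
      · have c2 : k = j - i := by omega
        subst c2
        simp only [le_refl, if_true, c1, if_false]
        rw [show i + (j - i) = j by omega]
        exact ha2.symm
    · have c1 : ¬ (j - i + 2 - 1 ≤ j - i) := by omega
      simp only [c1, if_false, Nat.zero_le, if_true, Nat.add_zero]
      exact ha1
    · intro k hk
      by_cases c1 : k ≤ j - i
      · simp only [c1, if_true]; exact hP.reach _ (by omega)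
      · simp only [c1, if_false]; exact hP.reach _ le_rfl
    · intro k hk
      by_cases c1 : k ≤ j - i
      · simp only [c1, if_true]; exact hP.av _ (by omega)
      · simp only [c1, if_false]; exact hP.av _ le_rfl
  obtain ⟨z, w, hz1, hw1, hzw, hz, hw, -⟩ := nb3 (hdeg _ _ hlast.1) hlast.1
  rcases hon z hz hz1.symm with h1 | ⟨i, hi, h1⟩
  · rcases hon w hw hw1.symm with h2 | ⟨j, hj, h2⟩
    · exact absurd (h1.trans h2.symm) hzw
    · rw [h1] at hz
      exact ⟨hz, j, hj, h2 ▸ hw⟩
  · rcases hon w hw hw1.symm with h2 | ⟨j, hj, h2⟩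
    · rw [h2] at hw
      exact ⟨hw, i, hi, h1 ▸ hz⟩
    · exfalso
      subst h1 h2
      rcases Nat.lt_trichotomy i j with h | h | h
      · exact hno i j h hj hz hw
      · subst h; exact hzw rfl
      · exact hno j i h hi hw hz

theorem diamond {L : SimpleGraph V} {a u : V}
    (hdeg : ∀ x y, L.Adj x y → {z | L.Adj x z}.ncard = 3)
    (hK1 : ∀ x, (nb L).Reachable u x → x ≠ u → ∀ y, L.Adj x y → (nb L).Adj x y)
    (hev : ∀ n x, Cyc L n x → Even n → (∀ i, i < n → (nb L).Reachable u (x i)) →
      (∀ i, i < n → x i ≠ a) → False)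
    (hBI : BI L u) (hau : a ≠ u) (hKa : (nb L).Reachable u a)
    (hnb : ∃ w, (nb L).Adj u w) :
    ∃ p q t, (nb L).Reachable u p ∧ (nb L).Reachable u q ∧ (nb L).Reachable u t ∧
      a ≠ p ∧ a ≠ q ∧ a ≠ t ∧ p ≠ q ∧ p ≠ t ∧ q ≠ t ∧ L.Adj a p ∧ L.Adj a q ∧
      L.Adj p t ∧ L.Adj q t ∧ ¬ L.Adj a t := by
  obtain ⟨w, hw⟩ := hnb
  obtain ⟨z, hzw, hz⟩ := two_nb hw
  obtain ⟨w0, hw0, hw0a⟩ : ∃ w0, (nb L).Adj u w0 ∧ w0 ≠ a := by
    by_cases h : w = a
    · exact ⟨z, hz, fun h' => hzw (h'.trans h.symm)⟩
    · exact ⟨w, hw, h⟩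
  -- the path of length one
  have hex1 : ∃ P, PP (nb L) a u 1 P := by
    refine ⟨fun i => if i = 0 then u else w0, ⟨by simp, ?_, ?_, ?_⟩⟩
    · intro i j hi hj hij
      have hne : u ≠ w0 := hw0.ne
      by_cases h1 : i = 0 <;> by_cases h2 : j = 0
      · omega
      · simp only [h1, h2, if_true, if_false] at hij; exact absurd hij hne
      · simp only [h1, h2, if_true, if_false] at hij; exact absurd hij.symm hne
      · omega
    · intro i hi
      by_cases h1 : i = 0
      · simp only [h1, if_true]; exact hau.symm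
      · simp only [h1, if_false]; exact hw0a
    · intro i hi
      have : i = 0 := by omega
      subst this
      simpa using hw0
  -- maximal length
  obtain ⟨m, hm1, ⟨P, hP⟩, hmax⟩ : ∃ m, 1 ≤ m ∧ (∃ P, PP (nb L) a u m P) ∧
      ∀ P, ¬ PP (nb L) a u (m + 1) P := by
    by_contra hcon
    push Not at hcon
    have hall : ∀ m, 1 ≤ m → ∃ P, PP (nb L) a u m P := by
      intro m hm
      induction m, hm using Nat.le_induction with
      | base => exact hex1
      | succ k hk ih => exact hcon k hk ih
    obtain ⟨P, hP⟩ := hall (Fintype.card V + 1) (by omega)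
    have := hP.lt_card
    omega
  obtain ⟨hpa, j, hj, hpj⟩ := end_lem hdeg hK1 hev hmax hP hm1
  have hxu : P m ≠ u := by
    intro h
    rw [← hP.h0] at h
    have := hP.inj m 0 le_rfl (by omega) h
    omega
  have hjm : (nb L).Adj (P m) (P j) := hK1 _ (hP.reach m le_rfl) hxu _ hpj
  -- the rotated path
  have hQ : PP (nb L) a u m (fun i => if i ≤ j then P i else P (m + j + 1 - i)) := by
    refine ⟨by simp [hP.h0], ?_, ?_, ?_⟩
    · intro k l hk hl hkl
      by_cases c1 : k ≤ j <;> by_cases c2 : l ≤ j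
      · simp only [c1, c2, if_true] at hkl
        have := hP.inj _ _ (by omega) (by omega) hkl
        omega
      · simp only [c1, c2, if_true, if_false] at hkl
        have := hP.inj _ _ (by omega) (by omega) hkl
        omega
      · simp only [c1, c2, if_true, if_false] at hkl
        have := hP.inj _ _ (by omega) (by omega) hkl
        omega
      · simp only [c1, c2, if_false] at hkl
        have := hP.inj _ _ (by omega) (by omega) hkl
        omega
    · intro k hk
      by_cases c1 : k ≤ j
      · simp only [c1, if_true]; exact hP.av _ (by omega)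
      · simp only [c1, if_false]; exact hP.av _ (by omega)
    · intro k hk
      by_cases c1 : k + 1 ≤ j
      · have c2 : k ≤ j := by omega
        simp only [c1, c2, if_true]
        exact hP.adj k (by omega)
      · by_cases c2 : k ≤ j
        · have c3 : k = j := by omega
          subst c3
          simp only [le_refl, if_true, c1, if_false]
          rw [show m + k + 1 - (k + 1) = m by omega]
          exact hjm.symm
        · simp only [c1, c2, if_false]
          have := hP.adj (m + j - k) (by omega)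
          rw [show m + j - k + 1 = m + j + 1 - k by omega] at this
          rw [show m + j + 1 - (k + 1) = m + j - k by omega]
          exact this.symm
  obtain ⟨hqa, -⟩ := end_lem hdeg hK1 hev hmax hQ hm1
  have hqa' : L.Adj (P (j + 1)) a := by
    have c1 : ¬ (m ≤ j) := by omega
    simp only [c1, if_false] at hqa
    rw [show m + j + 1 - m = j + 1 by omega] at hqa
    exact hqa
  have hpq : P m ≠ P (j + 1) := by
    intro h
    have := hP.inj _ _ le_rfl (by omega) h
    omega
  have hpt : P m ≠ P j := hpj.ne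
  have hqt : (nb L).Adj (P j) (P (j + 1)) := hP.adj j (by omega)
  refine ⟨P m, P (j + 1), P j, hP.reach _ le_rfl, hP.reach _ (by omega), hP.reach _ (by omega),
    (hP.av _ le_rfl).symm, (hP.av _ (by omega)).symm, (hP.av _ (by omega)).symm, hpq, hpt,
    hqt.ne', hpa.symm, hqa'.symm, hpj, hqt.1.symm, ?_⟩
  intro hat
  by_cases hj0 : j = 0
  · subst hj0
    have hu : P 0 = u := hP.h0
    rw [hu] at hat hpj hqt hjm
    obtain ⟨y, hy1, hy2⟩ := hBI
    have hatM : (nb L).Adj a u := hK1 a hKa hau u hat
    have ne1 : y ≠ P m := by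
      rintro rfl
      exact hjm.symm.2 hy2
    have ne2 : y ≠ P (0 + 1) := by
      rintro rfl
      exact hqt.2 hy2
    have ne3 : y ≠ a := by
      rintro rfl
      exact hatM.symm.2 hy2
    exact no4 (hdeg _ _ hy1) hy1 hpj.symm hqt.1 hat.symm ne1 ne2 ne3 hpq (hP.av _ le_rfl)
      (hP.av _ (by omega))
  · have hpr : L.Adj (P j) (P (j - 1)) := by
      have := (hP.adj (j - 1) (by omega)).1.symm
      rw [show j - 1 + 1 = j by omega] at this
      exact this
    have n1 : P (j - 1) ≠ P m := by
      intro h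
      have := hP.inj _ _ (by omega) le_rfl h
      omega
    have n2 : P (j - 1) ≠ P (j + 1) := by
      intro h
      have := hP.inj _ _ (by omega) (by omega) h
      omega
    exact no4 (hdeg _ _ hpr) hpr hpj.symm hqt.1 hat.symm n1 n2 (hP.av _ (by omega)) hpq
      (hP.av _ le_rfl) (hP.av _ (by omega))

/-- the indicator -/
noncomputable def ind (p : Prop) : ℕ := if p then 1 else 0

theorem ind_le {p : Prop} : ind p ≤ 1 := by
  unfold ind; split_ifs <;> omega

theorem ind4 {A B C D : Prop} (t1 : ¬ (A ∧ B ∧ C)) (t2 : ¬ (A ∧ B ∧ D)) (t3 : ¬ (A ∧ C ∧ D))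
    (t4 : ¬ (B ∧ C ∧ D)) : ind A + ind B + ind C + ind D ≤ 2 := by
  unfold ind
  by_cases f1 : A <;> by_cases f2 : B <;> by_cases f3 : C <;> by_cases f4 : D <;>
    simp [f1, f2, f3, f4] at t1 t2 t3 t4 ⊢

theorem cst_le1 {L : SimpleGraph V} {F : V → Prop} {m : V → V → Prop} (h : GH L F m) (n : ℕ)
    (x : ℕ → V) (i : ℕ) : cst L F m n x i ≤ 1 + ind (F (x i)) := by
  unfold cst ind
  split_ifs with h1 h2 h3 h4 h5 <;> try omega
  exact absurd (by obtain ⟨y, hy, -, hm⟩ := h1; exact h.Fm _ _ hy hm) h2

theorem cst_le2 {L : SimpleGraph V} {F : V → Prop} {m : V → V → Prop} (h : GH L F m) (n : ℕ)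
    (x : ℕ → V) (i : ℕ) (hc : ¬ Chd L n x i) : cst L F m n x i ≤ 2 * ind (F (x i)) := by
  unfold cst ind
  by_cases h2 : F (x i)
  · simp only [h2, if_true]
    split_ifs <;> omega
  · have h1 : ¬ ∃ y, L.Adj (x i) y ∧ (∀ j, j < n → CA n i j → y ≠ x j) ∧ m (x i) y := by
      rintro ⟨y, hy, -, hm⟩
      exact h2 (h.Fm _ _ hy hm)
    simp [h1, h2, hc]

end LPathAux

open Finset LPathAux
open scoped Classical

theorem LPATH_ok : S_F2 → S_LPATH := by
  intro hF2 V _ L F m hGH u hBI hnb hleaf hcard
  have hK1 : ∀ x, (nb L).Reachable u x → x ≠ u → ∀ y, L.Adj x y → (nb L).Adj x y := by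
    intro x hx hxu y hxy
    refine ⟨hxy, fun hbr => hxu (hleaf x hx ⟨y, hxy, hbr⟩)⟩
  have three : ∀ x y z, (nb L).Reachable u x → (nb L).Reachable u y → (nb L).Reachable u z →
      F x → F y → F z → x ≠ y → x ≠ z → y ≠ z → False := by
    intro x y z hx hy hz fx fy fz hxy hxz hyz
    have hsub : ({x, y, z} : Finset V) ⊆ univ.filter (fun x => (nb L).Reachable u x ∧ F x) := by
      intro v hv
      simp only [mem_insert, mem_singleton] at hv
      simp only [mem_filter, mem_univ, true_and]
      rcases hv with rfl | rfl | rfl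
      · exact ⟨hx, fx⟩
      · exact ⟨hy, fy⟩
      · exact ⟨hz, fz⟩
    have h3 : ({x, y, z} : Finset V).card = 3 := Finset.card_eq_three.mpr ⟨x, y, z, hxy, hxz, hyz, rfl⟩
    have := Finset.card_le_card hsub
    omega
  obtain ⟨a, hKa, hau, hone⟩ : ∃ a, (nb L).Reachable u a ∧ a ≠ u ∧
      ∀ y z, (nb L).Reachable u y → (nb L).Reachable u z → F y → F z → y ≠ a → z ≠ a → y = z := by
    by_cases h : ∃ a0, (nb L).Reachable u a0 ∧ F a0 ∧ a0 ≠ u
    · obtain ⟨a0, h1, h2, h3⟩ := h
      refine ⟨a0, h1, h3, ?_⟩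
      intro y z hy hz fy fz hya hza
      by_contra hyz
      exact three a0 y z h1 hy hz h2 fy fz hya.symm hza.symm hyz
    · obtain ⟨w, hw⟩ := hnb
      refine ⟨w, hw.reachable, hw.ne', ?_⟩
      intro y z hy hz fy fz _ _
      have e1 : y = u := by
        by_contra hyu; exact h ⟨y, hy, fy, hyu⟩
      have e2 : z = u := by
        by_contra hzu; exact h ⟨z, hz, fz, hzu⟩
      rw [e1, e2]
  have hev : ∀ n x, Cyc L n x → Even n → (∀ i, i < n → (nb L).Reachable u (x i)) →
      (∀ i, i < n → x i ≠ a) → False := by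
    intro n x hc he hr hna
    have h2 := hF2 V L F m hGH n x hc he
    obtain ⟨i, hi, j, hj, hij⟩ := Finset.one_lt_card.mp (show 1 < _ from h2)
    simp only [mem_filter, mem_range] at hi hj
    exact hij (hc.inj i j hi.1 hj.1
      (hone _ _ (hr i hi.1) (hr j hj.1) hi.2 hj.2 (hna i hi.1) (hna j hj.1)))
  obtain ⟨p, q, t, hKp, hKq, hKt, hap, haq, hat, hpq, hpt, hqt, eap, eaq, ept, eqt, nat⟩ :=
    diamond hGH.deg hK1 hev hBI hau hKa hnb
  -- the 4-cycle
  let x : ℕ → V := fun i => if i = 0 then a else if i = 1 then q else if i = 2 then t else p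
  have x0 : x 0 = a := rfl
  have x1 : x 1 = q := rfl
  have x2 : x 2 = t := rfl
  have x3 : x 3 = p := rfl
  have hcyc : Cyc L 4 x := by
    refine ⟨by norm_num, ?_, ?_, ?_⟩
    · intro i j hi hj hij
      interval_cases i <;> interval_cases j <;> first
        | rfl
        | (exfalso; simp only [x0, x1, x2, x3] at hij;
           first
             | exact hap hij | exact hap hij.symm | exact haq hij | exact haq hij.symm
             | exact hat hij | exact hat hij.symm | exact hpq hij | exact hpq hij.symm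
             | exact hpt hij | exact hpt hij.symm | exact hqt hij | exact hqt hij.symm)
    · intro i hi
      have hi' : i < 3 := by omega
      interval_cases i
      · exact eaq
      · exact eqt
      · exact ept.symm
    · exact eap.symm
  have hcost := hGH.cost 4 x hcyc (by decide)
  rw [sum_range_succ, sum_range_succ, sum_range_succ, sum_range_succ, sum_range_zero] at hcost
  have hc0 : ¬ Chd L 4 x 0 := by
    rintro ⟨j, hj, hadj, hca⟩
    interval_cases j
    · exact L.loopless.irrefl _ hadj
    · exact hca (by unfold CA; omega)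
    · exact nat hadj
    · exact hca (by unfold CA; omega)
  have hc2 : ¬ Chd L 4 x 2 := by
    rintro ⟨j, hj, hadj, hca⟩
    interval_cases j
    · exact nat hadj.symm
    · exact hca (by unfold CA; omega)
    · exact L.loopless.irrefl _ hadj
    · exact hca (by unfold CA; omega)
  have k0 := cst_le2 hGH 4 x 0 hc0
  have k2 := cst_le2 hGH 4 x 2 hc2
  rw [x0] at k0
  rw [x2] at k2
  have k1 := cst_le1 hGH 4 x 1
  have k3 := cst_le1 hGH 4 x 3
  rw [x1] at k1
  rw [x3] at k3
  have t1 : ¬ (F a ∧ F q ∧ F t) := fun ⟨h1, h2, h3⟩ => three a q t hKa hKq hKt h1 h2 h3 haq hat hqt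
  have t2 : ¬ (F a ∧ F q ∧ F p) := fun ⟨h1, h2, h3⟩ =>
    three a q p hKa hKq hKp h1 h2 h3 haq hap hpq.symm
  have t3 : ¬ (F a ∧ F t ∧ F p) := fun ⟨h1, h2, h3⟩ =>
    three a t p hKa hKt hKp h1 h2 h3 hat hap hpt.symm
  have t4 : ¬ (F q ∧ F t ∧ F p) := fun ⟨h1, h2, h3⟩ =>
    three q t p hKq hKt hKp h1 h2 h3 hqt hpq.symm hpt.symm
  have hsum : ind (F a) + ind (F q) + ind (F t) + ind (F p) ≤ 2 := ind4 t1 t2 t3 t4
  have epq : L.Adj p q := by
    by_contra hno
    have hc1 : ¬ Chd L 4 x 1 := by
      rintro ⟨j, hj, hadj, hca⟩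
      interval_cases j
      · exact hca (by unfold CA; omega)
      · exact L.loopless.irrefl _ hadj
      · exact hca (by unfold CA; omega)
      · exact hno hadj.symm
    have hc3 : ¬ Chd L 4 x 3 := by
      rintro ⟨j, hj, hadj, hca⟩
      interval_cases j
      · exact hca (by unfold CA; omega)
      · exact hno hadj
      · exact hca (by unfold CA; omega)
      · exact L.loopless.irrefl _ hadj
    have k1' := cst_le2 hGH 4 x 1 hc1
    have k3' := cst_le2 hGH 4 x 3 hc3
    rw [x1] at k1'
    rw [x3] at k3'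
    omega
  have hA := @ind_le (F a)
  have hT := @ind_le (F t)
  have hfa : F a := by
    by_contra h
    have : ind (F a) = 0 := by simp [ind, h]
    omega
  have hft : F t := by
    by_contra h
    have : ind (F t) = 0 := by simp [ind, h]
    omega
  obtain ⟨r, hrp, hrq, har, -⟩ := nb3' (hGH.deg _ _ eap) eap eaq hpq
  refine ⟨a, p, q, t, r, hKa, hat, eap, eaq, epq, ept, eqt, nat, har, hrp, hrq,
    (hK1 a hKa hau r har).2, ?_⟩
  intro y hy fy
  by_contra hcon
  push Not at hcon
  exact three a t y hKa hKt hy hfa hft fy hat hcon.1.symm hcon.2.symm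

end Pool.Agent.R695.TR
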